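import Pool.Agent.K1H27.TP.Stm

set_option autoImplicit false

/-! Project TP (helper27), piece ALG: the algebraic inequality. -/

namespace Pool.Agent.K1H75.TP

open Pool.Agent.K1H27.TP

theorem fact1 {τ s : ℝ} (hs : 0 ≤ s) (y : ℝ) : s * y - s ^ 2 / 2 - τ * s ≤ chi τ y := by
  unfold chi
  have h1 : y - τ ≤ max (y - τ) 0 := le_max_left _ _
  have h2 := mul_le_mul_of_nonneg_left h1 hs
  nlinarith [sq_nonneg (s - max (y - τ) 0)]

theorem tan (τ x y : ℝ) : chi τ x + (y - x) * max (x - τ) 0 ≤ chi τ y := by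
  unfold chi
  rcases le_total (x - τ) 0 with h | h
  · rw [max_eq_right h]
    have := sq_nonneg (max (y - τ) 0)
    nlinarith
  · rw [max_eq_left h]
    have h1 : y - τ ≤ max (y - τ) 0 := le_max_left _ _
    have h2 := mul_le_mul_of_nonneg_right h1 h
    nlinarith [sq_nonneg (max (y - τ) 0 - (x - τ))]

theorem sup {τ a d : ℝ} (hτ : 0 ≤ τ) (ha : 0 ≤ a) (hd : 0 ≤ d) :
    chi τ a + chi τ d ≤ chi τ (a + d) := by
  unfold chi
  have h1 : max (a - τ) 0 + max (d - τ) 0 ≤ max (a + d - τ) 0 := by
    rcases le_total (a - τ) 0 with h | h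
    · rw [max_eq_right h, zero_add]
      exact max_le_max_right _ (by linarith)
    · rcases le_total (d - τ) 0 with h' | h'
      · rw [max_eq_right h', add_zero]
        exact max_le_max_right _ (by linarith)
      · rw [max_eq_left h, max_eq_left h']
        exact le_trans (by linarith) (le_max_left _ _)
  have h2 : 0 ≤ max (a - τ) 0 := le_max_right _ _
  have h3 : 0 ≤ max (d - τ) 0 := le_max_right _ _
  have h4 : (max (a - τ) 0 + max (d - τ) 0) ^ 2 ≤ (max (a + d - τ) 0) ^ 2 := by
    gcongr
  nlinarith [mul_nonneg h2 h3]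

/-- the bracket with a bounded variable -/
theorem brk {τ D l w : ℝ} (hD : 0 ≤ D) (hl : D ≤ l) :
    D * w - D ^ 2 / 2 - τ * D ≤ chi τ w - chi τ (w - l) := by
  rcases le_total (w - l - τ) 0 with h | h
  · have h1 : chi τ (w - l) = 0 := by
      unfold chi
      rw [max_eq_right h]
      norm_num
    rw [h1, sub_zero]
    exact fact1 hD w
  · unfold chi
    rw [max_eq_left h, max_eq_left (by linarith : 0 ≤ w - τ)]
    nlinarith [mul_nonneg (sub_nonneg.2 hl) (by linarith : 0 ≤ (w - τ) - (l + D) / 2)]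

/-- the second part of the third case -/
theorem low {τ l w q Z a : ℝ} (hl : 0 ≤ l) (hq : 0 ≤ q) (hql : q ≤ l) (ha : w ≤ a)
    (hZ : Z = w + l - q) :
    chi τ a + 2 * chi τ w - chi τ (w - l) ≤ chi τ (a + q) + chi τ Z := by
  have k0 : 0 ≤ max (w - τ) 0 := le_max_right _ _
  have h1 := tan τ a (a + q)
  have h2 := tan τ w Z
  have h3 := tan τ w (w - l)
  have h4 : max (w - τ) 0 ≤ max (a - τ) 0 := max_le_max_right _ (by linarith)
  have h5 := mul_le_mul_of_nonneg_left h4 hq
  rw [hZ] at h2 ⊢
  have e1 : (a + q - a) * max (a - τ) 0 = q * max (a - τ) 0 := by ring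
  have e2 : (w + l - q - w) * max (w - τ) 0 = l * max (w - τ) 0 - q * max (w - τ) 0 := by ring
  have e3 : (w - l - w) * max (w - τ) 0 = -(l * max (w - τ) 0) := by ring
  rw [e1] at h1
  rw [e2] at h2
  rw [e3] at h3
  linarith

theorem t_ALG : S_ALG := by
  intro l1 l2 p1 p2 f T A B C D τ hl1 hl2 hp1 hp2 hf0 hf1 hT hA hB hC hD hτ hAB hCD hf hg
  have hT' : T = (A + C) - (B + D) := by linarith
  by_cases c1 : l1 * f ≤ 2 * p1
  · -- case 1
    have h1 := fact1 (τ := τ) (add_nonneg hB hD) (l1 - p1 + p2)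
    have h2 := fact1 (τ := τ) (add_nonneg hA hC) (l2 + p1 - p2)
    have h3 : 0 ≤ D * (l1 - B) := mul_nonneg hD (by linarith)
    have h4 : 0 ≤ A * (l2 - C) := mul_nonneg hA (by linarith)
    have h5 : 0 ≤ T * (2 * p1 - l1 * f) := mul_nonneg hT (by linarith)
    have key : (B + D) * (l1 - p1 + p2) - (B + D) ^ 2 / 2 - τ * (B + D) +
        ((A + C) * (l2 + p1 - p2) - (A + C) ^ 2 / 2 - τ * (A + C)) -
        ((A * l1 - (A ^ 2 + B ^ 2) / 2) + (C * l2 - (C ^ 2 + D ^ 2) / 2) - T * (p1 + p2)
          - τ * (A + B + C + D)) =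
        D * (l1 - B) + A * (l2 - C) + T * (2 * p1 - l1 * f) +
          (l1 * (B - A + f * T) + (p1 - p2) * ((A + C) - (B + D) - T)) := by ring
    have e1 : B - A + f * T = 0 := by linarith
    have e2 : (A + C) - (B + D) - T = 0 := by linarith
    rw [e1, e2] at key
    linarith
  · by_cases c2 : l2 * (1 - f) ≤ 2 * p2
    · -- case 2
      have h1 := fact1 (τ := τ) (add_nonneg hA hC) (l1 - p1 + p2)
      have h2 := fact1 (τ := τ) (add_nonneg hB hD) (l2 + p1 - p2)
      have h3 : 0 ≤ C * (l1 - A) := mul_nonneg hC (by linarith)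
      have h4 : 0 ≤ B * (l2 - D) := mul_nonneg hB (by linarith)
      have h5 : 0 ≤ T * (2 * p2 - l2 * (1 - f)) := mul_nonneg hT (by linarith)
      have key : (A + C) * (l1 - p1 + p2) - (A + C) ^ 2 / 2 - τ * (A + C) +
          ((B + D) * (l2 + p1 - p2) - (B + D) ^ 2 / 2 - τ * (B + D)) -
          ((A * l1 - (A ^ 2 + B ^ 2) / 2) + (C * l2 - (C ^ 2 + D ^ 2) / 2) - T * (p1 + p2)
            - τ * (A + B + C + D)) =
          C * (l1 - A) + B * (l2 - D) + T * (2 * p2 - l2 * (1 - f)) +
            (l2 * (D - C + (1 - f) * T) + (p2 - p1) * ((A + C) - (B + D) - T)) := by ring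
      have e1 : D - C + (1 - f) * T = 0 := by linarith
      have e2 : (A + C) - (B + D) - T = 0 := by linarith
      rw [e1, e2] at key
      linarith
    · -- case 3
      rw [not_le] at c1 c2
      obtain ⟨w, hw⟩ : ∃ w, w = p1 + p2 := ⟨_, rfl⟩
      have hw0 : 0 ≤ w := by linarith
      have key : (A * l1 - (A ^ 2 + B ^ 2) / 2) + (C * l2 - (C ^ 2 + D ^ 2) / 2) - T * (p1 + p2)
          - τ * (A + B + C + D) =
          (A * (l1 - w) - A ^ 2 / 2 - τ * A) + (B * w - B ^ 2 / 2 - τ * B) +
          (C * (l2 - w) - C ^ 2 / 2 - τ * C) + (D * w - D ^ 2 / 2 - τ * D) := by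
        rw [hT', hw]
        ring
      rw [key]
      have hf1' : 0 ≤ 1 - f := by linarith
      have q1 : 2 * p1 ≤ l1 := by nlinarith
      have q2 : 2 * p2 ≤ l2 := by nlinarith
      by_cases d1 : l2 < w
      · -- l2 < w
        have hl1w : 2 * w ≤ l1 := by
          by_contra hc
          rw [not_le] at hc
          have i1 : l2 * (1 - f) ≤ w * (1 - f) := mul_le_mul_of_nonneg_right d1.le hf1'
          have i2 : l1 * f ≤ 2 * w * f := mul_le_mul_of_nonneg_right hc.le hf0
          have i3 : w * f ≤ w * 1 := mul_le_mul_of_nonneg_left hf1 hw0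
          nlinarith
        have b1 := fact1 (τ := τ) hA (l1 - w)
        have b2 := fact1 (τ := τ) hB w
        have b3 : C * (l2 - w) - C ^ 2 / 2 - τ * C ≤ 0 := by
          have := mul_nonneg hC (by linarith : 0 ≤ w - l2)
          have := mul_nonneg hτ hC
          have := sq_nonneg C
          nlinarith
        have b4 := brk (τ := τ) (w := w) hD (by linarith : D ≤ l2)
        have b5 := low (τ := τ) (l := l2) (w := w) (q := 2 * p2) (Z := l2 + p1 - p2)
          (a := l1 - w) hl2 (by linarith) q2 (by linarith) (by rw [hw]; ring)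
        have e1 : l1 - w + 2 * p2 = l1 - p1 + p2 := by rw [hw]; ring
        rw [e1] at b5
        linarith
      · by_cases d2 : l1 < w
        · -- l1 < w
          have hl2w : 2 * w ≤ l2 := by
            by_contra hc
            rw [not_le] at hc
            have i1 : l1 * f ≤ w * f := mul_le_mul_of_nonneg_right d2.le hf0
            have i2 : l2 * (1 - f) ≤ 2 * w * (1 - f) := mul_le_mul_of_nonneg_right hc.le hf1'
            have i3 : w * (1 - f) ≤ w * 1 := mul_le_mul_of_nonneg_left (by linarith) hw0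
            nlinarith
          have b1 : A * (l1 - w) - A ^ 2 / 2 - τ * A ≤ 0 := by
            have := mul_nonneg hA (by linarith : 0 ≤ w - l1)
            have := mul_nonneg hτ hA
            have := sq_nonneg A
            nlinarith
          have b2 := brk (τ := τ) (w := w) hB (by linarith : B ≤ l1)
          have b3 := fact1 (τ := τ) hC (l2 - w)
          have b4 := fact1 (τ := τ) hD w
          have b5 := low (τ := τ) (l := l1) (w := w) (q := 2 * p1) (Z := l1 - p1 + p2)
            (a := l2 - w) hl1 (by linarith) q1 (by linarith) (by rw [hw]; ring)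
          have e1 : l2 - w + 2 * p1 = l2 + p1 - p2 := by rw [hw]; ring
          rw [e1] at b5
          linarith
        · rw [not_lt] at d1 d2
          have b1 := fact1 (τ := τ) hA (l1 - w)
          have b2 := fact1 (τ := τ) hB w
          have b3 := fact1 (τ := τ) hC (l2 - w)
          have b4 := fact1 (τ := τ) hD w
          have s1 := sup (a := l1 - w) (d := 2 * p2) hτ (by linarith) (by linarith)
          have s2 := sup (a := l2 - w) (d := 2 * p1) hτ (by linarith) (by linarith)
          have e1 : l1 - w + 2 * p2 = l1 - p1 + p2 := by rw [hw]; ring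
          have e2 : l2 - w + 2 * p1 = l2 + p1 - p2 := by rw [hw]; ring
          rw [e1] at s1
          rw [e2] at s2
          have t1 := tan τ w (2 * p1)
          have t2 := tan τ w (2 * p2)
          have e3 : (2 * p1 - w) * max (w - τ) 0 + (2 * p2 - w) * max (w - τ) 0 = 0 := by
            rw [hw]
            ring
          linarith

end Pool.Agent.K1H75.TP
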